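import Mathlib
import Pool.Agent.H48.QNeuM

set_option autoImplicit false

namespace Pool.Agent.Results.MP_64d585_al.Q2

open Quaternion Matrix

/-- Square quaternion matrices. -/
abbrev Mat (n : ℕ) := Matrix (Fin n) (Fin n) ℍ[ℝ]

/-- Right subspaces of the quaternion column space. -/
abbrev Sub (n : ℕ) := Submodule ℍ[ℝ]ᵐᵒᵖ (Fin n → ℍ[ℝ])

variable {n : ℕ}

/-- A nonstandard involution of the quaternions. -/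
def Nonstd (φ : ℍ[ℝ] →ₗ[ℝ] ℍ[ℝ]) : Prop :=
  (∀ x y, φ (x * y) = φ y * φ x) ∧ (∀ x, φ (φ x) = x) ∧ ∃ x, φ x ≠ star x

/-- The transpose with `φ` applied to every entry. -/
noncomputable def adj (φ : ℍ[ℝ] →ₗ[ℝ] ℍ[ℝ]) (X : Mat n) : Mat n := (X.map φ)ᵀ

/-- The quaternion `x_φ G y`. -/
noncomputable def ip (φ : ℍ[ℝ] →ₗ[ℝ] ℍ[ℝ]) (G : Mat n) (x y : Fin n → ℍ[ℝ]) : ℍ[ℝ] :=
  (fun i => φ (x i)) ⬝ᵥ G *ᵥ y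

def Inv (A : Mat n) (M : Sub n) : Prop := ∀ x ∈ M, A *ᵥ x ∈ M

def Neutral (φ : ℍ[ℝ] →ₗ[ℝ] ℍ[ℝ]) (G : Mat n) (M : Sub n) : Prop :=
  ∀ x ∈ M, ∀ y ∈ M, ip φ G y x = 0

def Nonneg (φ : ℍ[ℝ] →ₗ[ℝ] ℍ[ℝ]) (β : ℍ[ℝ]) (G : Mat n) (M : Sub n) : Prop :=
  ∀ x ∈ M, 0 ≤ (β⁻¹ * ip φ G x x).re

def Nonpos (φ : ℍ[ℝ] →ₗ[ℝ] ℍ[ℝ]) (β : ℍ[ℝ]) (G : Mat n) (M : Sub n) : Prop :=
  ∀ x ∈ M, (β⁻¹ * ip φ G x x).re ≤ 0

/-- `l` is a (right) eigenvalue of the restriction of `A` to `M`. -/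
def IsEig (A : Mat n) (M : Sub n) (l : ℍ[ℝ]) : Prop :=
  ∃ x ∈ M, x ≠ 0 ∧ A *ᵥ x = fun i => x i * l

/-- The eigenvalues of the restriction of `A` to `M` with nonzero real part. -/
def Spec (A : Mat n) (M : Sub n) : Set ℍ[ℝ] := {l | IsEig A M l ∧ l.re ≠ 0}

/-- A set of eigenvalues of `A` with the first three properties of a c-set. -/
def PreC (A : Mat n) (S : Set ℍ[ℝ]) : Prop :=
  (∀ l ∈ S, IsEig A ⊤ l) ∧ (∀ l ∈ S, l.re ≠ 0) ∧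
    (∀ l ∈ S, ∀ u : ℍ[ℝ], u ≠ 0 → u⁻¹ * l * u ∈ S) ∧ ∀ l ∈ S, -l ∉ S

theorem result (φ : ℍ[ℝ] →ₗ[ℝ] ℍ[ℝ]) (hφ : Nonstd φ) (β : ℍ[ℝ]) (hβ : φ β = -β) (hβ1 : ‖β‖ = 1)
    (n : ℕ) (H A : Mat n) (hH : IsUnit H) (hs : adj φ H = H) (hA : H * A = -(adj φ A * H))
    (N : Sub n) (hN : Inv A N) (h0 : Neutral φ (H * A) N) :
    (∀ l ∈ Spec A N, -l ∉ Spec A N) → ∀ S, Maximal (PreC A) S → Spec A N ⊆ S →
      ∃ Lp Lm : Sub n, N ≤ Lp ∧ N ≤ Lm ∧ Inv A Lp ∧ Inv A Lm ∧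
        Maximal (Nonneg φ β (H * A)) Lp ∧ Maximal (Nonpos φ β (H * A)) Lm ∧
        Spec A Lp = S ∧ Spec A Lm = S := by
  obtain ⟨hm, hi, hne⟩ := hφ
  obtain ⟨h1, h2, h3⟩ := Pool.Agent.H48.QNeu.phi_eq φ hm hi hne β hβ hβ1
  have hb : β⁻¹ = -β := inv_eq_of_mul_eq_one_right (by rw [mul_neg, h1, neg_neg])
  have hb0 : β ≠ 0 := fun h => by simp [h] at hβ1
  have F := Pool.Agent.H48.QNeu.form φ.toAddMonoidHom hm hi H A hH β⁻¹ (inv_ne_zero hb0) hA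
    (Or.inl ⟨hs, fun c => by
      rw [hb, star_mul, star_neg, h2, neg_neg, h3, neg_mul, neg_neg]; rfl⟩)
  have := Pool.Agent.H48.QNeu.fin n
  obtain ⟨h1, h2⟩ := F.main (N := N) hN fun x hx y hy => by
    have := h0 y hy x hx
    exact (congrArg (β⁻¹ * ·) this).trans (mul_zero _)
  exact fun _ => h2

end Pool.Agent.Results.MP_64d585_al.Q2
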